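import Pool.Agent.Y602.CX.Main
import Pool.Agent.TH716.C3.P1a
import Pool.Agent.TH716.C3.P1b
import Pool.Agent.TH111.J515
import Pool.Agent.TH480.J518
import Pool.Agent.TH902.J519
import Pool.Agent.TH142.J520
import Pool.Agent.TH142.J521
import Pool.Agent.TH142.J522
import Pool.Agent.TH515.J523
import Pool.Agent.TH111.J524
import Pool.Agent.TH25.J525
import Pool.Agent.TH480.J526

/-!
# Complexes of dimension at most three: every property between contractibility and simple
connectedness is r.e.-hard

The reduction of the starting result ContractibilityDimThree, applied to a finitely presented group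
whose word problem is universal, computes from `n` a connected complex of dimension at most three
which is contractible if `n ∈ S`. If `n ∉ S` then it has a nontrivial cocycle with values in a
group; cocycles on a complex with simply connected realization are trivial, because the
corresponding covering has a section (realizations are locally path connected); so in this case the
complex is not simply connected.
-/

set_option autoImplicit false

namespace Pool.Agent.Results.MP_4c90a8_lc.EveryPropertyREHard

open Pool.Agent.TH716.C3 Pool.Agent.Y602.CX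
open Pool.Agent.Helper270.WPSource (u u_partrec u_not_computable)

theorem reduction' : ∃ F : ℕ → List (List ℕ), Computable F ∧ ∀ n,
    (∀ s ∈ F n, s.toFinset.card ≤ 4) ∧ PathConnectedSpace (Real (F n)) ∧
    ((u n).Dom → ContractibleSpace (Real (F n))) ∧
    (¬ (u n).Dom → ¬ SimplyConnectedSpace (Real (F n))) :=
  reduction (p1_of p1a (p1b Pool.Agent.TH480.J518.result)) Pool.Agent.TH142.J521.result.1
    Pool.Agent.TH142.J521.result.2.1 Pool.Agent.TH142.J521.result.2.2
    Pool.Agent.TH142.J522.result.2 Pool.Agent.TH480.J518.result Pool.Agent.TH142.J520.result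
    Pool.Agent.TH902.J519.result
    (Pool.Agent.TH515.J523.result Pool.Agent.TH142.J521.result.1).1
    (Pool.Agent.TH515.J523.result Pool.Agent.TH142.J521.result.1).2.1
    Pool.Agent.TH142.J522.result.1
    (Pool.Agent.TH515.J523.result Pool.Agent.TH142.J521.result.1).2.2
    Pool.Agent.TH111.J524.result.1 Pool.Agent.TH111.J524.result.2
    Pool.Agent.TH25.J525.result Pool.Agent.TH480.J526.result

/-- Complexes are lists `L` of simplices (lists of vertices, natural numbers); `Real L` is the
geometric realization of the complex of all nonempty subsets of members of `L`, and the dimension is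
at most three if each member of `L` has at most four vertices.
(1) For each recursively enumerable set `S` there is a computable sequence of complexes of dimension
at most three, with path connected realizations, such that the `n`-th one is contractible for
`n ∈ S` and not simply connected for `n ∉ S`.
(2) Let `P` be a property of complexes which holds for the contractible ones and, among the path
connected ones, only for simply connected ones (both in dimension at most three). Then each
recursively enumerable set is many-one reducible to `P`, by complexes of dimension at most three; no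
algorithm decides `P` for all complexes of dimension at most three; and no algorithm enumerates the
complexes of dimension at most three without the property `P`.
(3) In particular, no algorithm decides contractibility for complexes of dimension at most three, and
non-contractibility is not even semi-decidable. -/
theorem result :
    (∀ S : ℕ → Prop, REPred S → ∃ F : ℕ → List (List ℕ), Computable F ∧ ∀ n,
      (∀ s ∈ F n, s.toFinset.card ≤ 4) ∧ PathConnectedSpace (Real (F n)) ∧
      (S n → ContractibleSpace (Real (F n))) ∧
      (¬ S n → ¬ SimplyConnectedSpace (Real (F n)))) ∧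
    (∀ P : List (List ℕ) → Prop,
      (∀ L : List (List ℕ), (∀ s ∈ L, s.toFinset.card ≤ 4) → ContractibleSpace (Real L) → P L) →
      (∀ L : List (List ℕ), (∀ s ∈ L, s.toFinset.card ≤ 4) → PathConnectedSpace (Real L) → P L →
        SimplyConnectedSpace (Real L)) →
      (∀ S : ℕ → Prop, REPred S → ∃ F : ℕ → List (List ℕ), Computable F ∧ ∀ n,
        (∀ s ∈ F n, s.toFinset.card ≤ 4) ∧ (S n ↔ P (F n))) ∧
      (¬ ∃ f : List (List ℕ) → Bool, Computable f ∧ ∀ L : List (List ℕ),
        (∀ s ∈ L, s.toFinset.card ≤ 4) → (f L = true ↔ P L)) ∧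
      ¬ ∃ q : List (List ℕ) → Prop, REPred q ∧ ∀ L : List (List ℕ),
        (∀ s ∈ L, s.toFinset.card ≤ 4) → (q L ↔ ¬ P L)) ∧
    (¬ ∃ f : List (List ℕ) → Bool, Computable f ∧ ∀ L : List (List ℕ),
      (∀ s ∈ L, s.toFinset.card ≤ 4) →
      (f L = true ↔ ContractibleSpace {x : ℕ → ℝ // ∃ s ∈ L,
        (∀ i, 0 ≤ x i) ∧ (∀ i, i ∉ s → x i = 0) ∧ ∑ i ∈ s.toFinset, x i = 1})) ∧
    ¬ ∃ q : List (List ℕ) → Prop, REPred q ∧ ∀ L : List (List ℕ),
      (∀ s ∈ L, s.toFinset.card ≤ 4) →
      (q L ↔ ¬ ContractibleSpace {x : ℕ → ℝ // ∃ s ∈ L,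
        (∀ i, 0 ≤ x i) ∧ (∀ i, i ∉ s → x i = 0) ∧ ∑ i ∈ s.toFinset, x i = 1}) := by
  have h1 : ∀ S : ℕ → Prop, REPred S → ∃ F : ℕ → List (List ℕ), Computable F ∧ ∀ n,
      (∀ s ∈ F n, s.toFinset.card ≤ 4) ∧ PathConnectedSpace (Real (F n)) ∧
      (S n → ContractibleSpace (Real (F n))) ∧
      (¬ S n → ¬ SimplyConnectedSpace (Real (F n))) := by
    intro S hS
    obtain ⟨g, hg, hgS⟩ := universal hS
    obtain ⟨F, hF, h⟩ := reduction'
    refine ⟨fun n => F (g n), hF.comp hg, fun n => ?_⟩
    obtain ⟨a, b, c, d⟩ := h (g n)
    exact ⟨a, b, fun hn => c ((hgS n).1 hn), fun hn => d fun hh => hn ((hgS n).2 hh)⟩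
  have h2 : ∀ P : List (List ℕ) → Prop,
      (∀ L : List (List ℕ), (∀ s ∈ L, s.toFinset.card ≤ 4) → ContractibleSpace (Real L) → P L) →
      (∀ L : List (List ℕ), (∀ s ∈ L, s.toFinset.card ≤ 4) → PathConnectedSpace (Real L) → P L →
        SimplyConnectedSpace (Real L)) →
      (∀ S : ℕ → Prop, REPred S → ∃ F : ℕ → List (List ℕ), Computable F ∧ ∀ n,
        (∀ s ∈ F n, s.toFinset.card ≤ 4) ∧ (S n ↔ P (F n))) ∧
      (¬ ∃ f : List (List ℕ) → Bool, Computable f ∧ ∀ L : List (List ℕ),
        (∀ s ∈ L, s.toFinset.card ≤ 4) → (f L = true ↔ P L)) ∧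
      ¬ ∃ q : List (List ℕ) → Prop, REPred q ∧ ∀ L : List (List ℕ),
        (∀ s ∈ L, s.toFinset.card ≤ 4) → (q L ↔ ¬ P L) := by
    intro P hP1 hP2
    have hr : ∀ S : ℕ → Prop, REPred S → ∃ F : ℕ → List (List ℕ), Computable F ∧ ∀ n,
        (∀ s ∈ F n, s.toFinset.card ≤ 4) ∧ (S n ↔ P (F n)) := by
      intro S hS
      obtain ⟨F, hF, h⟩ := h1 S hS
      refine ⟨F, hF, fun n => ?_⟩
      obtain ⟨a, b, c, d⟩ := h n
      refine ⟨a, fun hn => hP1 _ a (c hn), fun hn => ?_⟩
      by_contra hc
      exact d hc (hP2 _ a b hn)
    have hre : REPred (fun n => (u n).Dom) := u_partrec.dom_re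
    obtain ⟨F, hF, h⟩ := hr _ hre
    refine ⟨hr, ?_, ?_⟩
    · rintro ⟨f, hf, hfP⟩
      apply u_not_computable
      refine ComputablePred.computable_iff.2 ⟨fun n => f (F n), hf.comp hF, ?_⟩
      funext n
      apply propext
      rw [(h n).2]
      exact (hfP _ (h n).1).symm
    · rintro ⟨q, hq, hqP⟩
      apply u_not_computable
      rw [ComputablePred.computable_iff_re_compl_re']
      refine ⟨hre, ?_⟩
      have h3 : REPred (fun n => q (F n)) := Partrec.comp hq hF
      have h4 : (fun n => ¬ (u n).Dom) = fun n => q (F n) := by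
        funext n
        apply propext
        rw [hqP _ (h n).1, (h n).2]
      rw [h4]
      exact h3
  refine ⟨h1, h2, ?_, ?_⟩
  · exact (h2 (fun L => ContractibleSpace (Real L)) (fun L _ hh => hh)
      (fun L _ _ (hh : ContractibleSpace (Real L)) => inferInstance)).2.1
  · exact (h2 (fun L => ContractibleSpace (Real L)) (fun L _ hh => hh)
      (fun L _ _ (hh : ContractibleSpace (Real L)) => inferInstance)).2.2

end Pool.Agent.Results.MP_4c90a8_lc.EveryPropertyREHard
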